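import Mathlib
import Pool.Agent.H54.SC.Second

/-!
# Q1: both supercongruences modulo `p ^ 8`

For every prime `p` other than `2` and `5`,
`∑_{k<p} F(k) C(2k,k)^7 / 256^k ≡ p^3` and
`∑_{k ≤ (p-1)/2} G(k) C(2k,k)^7 / 2^(20k) ≡ (-1/p) p^3` modulo `p^8`.

Route: the two WZ evaluations of the library write both sums as `p^3` times an explicit
`p`-integral number, and that number is computed modulo `p^5` with truncated logarithms of products
over `i < p`. The weight four part needs the congruence `key2`, which says that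
`8 ∑_{n<p odd} (1/n^3) ∑_{m<n} (-1)^(m-1)/m` is congruent modulo `p` to
`(∑_{j ≤ (p-1)/2} 1/j) (∑_{j ≤ (p-1)/2} 1/j^3)`.
-/

set_option autoImplicit false

namespace Pool.Agent.Results.MP_48d34c_nt.ModPEight

open Finset

/-- `a ≡ b (mod p^m)` for rational numbers: the denominator of `(a - b) / p^m` is prime to `p`. -/
def CongMod (p m : ℕ) (a b : ℚ) : Prop := ¬ p ∣ ((a - b) / (p : ℚ) ^ m).den

theorem congMod_of {p m : ℕ} (hp : p ≠ 0) {a b c : ℚ} (hc : ¬ p ∣ c.den)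
    (h : a - b = (p : ℚ) ^ m * c) : CongMod p m a b := by
  unfold CongMod
  have hp0 : (p : ℚ) ^ m ≠ 0 := pow_ne_zero _ (by exact_mod_cast hp)
  rw [h, mul_div_cancel_left₀ _ hp0]
  exact hc

/-- `F(k) = 21k³ + 22k² + 8k + 1` -/
def F (k : ℕ) : ℚ := 21 * (k : ℚ) ^ 3 + 22 * (k : ℚ) ^ 2 + 8 * k + 1

/-- `G(k) = 168k³ + 76k² + 14k + 1` -/
def G (k : ℕ) : ℚ := 168 * (k : ℚ) ^ 3 + 76 * (k : ℚ) ^ 2 + 14 * k + 1

instance : Fact (Nat.Prime 3) := ⟨Nat.prime_three⟩

theorem three_first : CongMod 3 8 (∑ k ∈ range 3, F k / 256 ^ k * ((2 * k).choose k : ℚ) ^ 7)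
    (((3 : ℕ) : ℚ) ^ 3) := by
  have h1 : (91 : ℚ) / 512 ∈ Pool.Agent.R440.Zp 3 := by
    have := (Pool.Agent.R440.Zp 3).mul_mem (Pool.Agent.R440.natCast_mem_Zp (p := 3) 91)
      (Pool.Agent.R440.inv_nat_mem_Zp (p := 3) (c := 512) (by norm_num))
    convert this using 1
    norm_num
  refine congMod_of (by norm_num) (Pool.Agent.H54.SC.den_of_mem 3 h1) ?_
  simp only [F, sum_range_succ, sum_range_zero]
  have e1 : (2 * 1).choose 1 = 2 := by decide
  have e2 : (2 * 2).choose 2 = 6 := by decide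
  have e0 : (2 * 0).choose 0 = 1 := by decide
  rw [e0, e1, e2]
  norm_num

theorem three_second : CongMod 3 8
    (∑ k ∈ range ((3 - 1) / 2 + 1), G k / 2 ^ (20 * k) * ((2 * k).choose k : ℚ) ^ 7)
    ((-1) * ((3 : ℕ) : ℚ) ^ 3) := by
  have h1 : (35 : ℚ) / 8192 ∈ Pool.Agent.R440.Zp 3 := by
    have := (Pool.Agent.R440.Zp 3).mul_mem (Pool.Agent.R440.natCast_mem_Zp (p := 3) 35)
      (Pool.Agent.R440.inv_nat_mem_Zp (p := 3) (c := 8192) (by norm_num))
    convert this using 1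
    norm_num
  refine congMod_of (by norm_num) (Pool.Agent.H54.SC.den_of_mem 3 h1) ?_
  simp only [G]
  rw [show (3 - 1) / 2 + 1 = 1 + 1 by norm_num, sum_range_succ, sum_range_one]
  have e1 : (2 * 1).choose 1 = 2 := by decide
  have e0 : (2 * 0).choose 0 = 1 := by decide
  rw [e0, e1]
  norm_num

/-- Q1: for every prime `p` other than `2` and `5` both supercongruences modulo `p ^ 8` hold. -/
theorem result (p : ℕ) [hpf : Fact p.Prime] (h2 : p ≠ 2) (h5 : p ≠ 5) :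
    CongMod p 8 (∑ k ∈ range p, F k / 256 ^ k * ((2 * k).choose k : ℚ) ^ 7) ((p : ℚ) ^ 3) ∧
    CongMod p 8 (∑ k ∈ range ((p - 1) / 2 + 1), G k / 2 ^ (20 * k) * ((2 * k).choose k : ℚ) ^ 7)
      ((legendreSym p (-1) : ℚ) * (p : ℚ) ^ 3) := by
  have hodd : p % 2 = 1 := hpf.out.eq_two_or_odd.resolve_left h2
  obtain ⟨h, hp⟩ : ∃ h, p = 2 * h + 1 := ⟨p / 2, by omega⟩
  have hleg : (legendreSym p (-1) : ℚ) = (-1) ^ h := by
    rw [legendreSym.at_neg_one h2, ZMod.χ₄_eq_neg_one_pow hodd, show p / 2 = h by omega]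
    push_cast
    rfl
  have hge : 2 ≤ p := hpf.out.two_le
  by_cases h3 : p = 3
  · subst h3
    have hh : h = 1 := by omega
    subst hh
    rw [hleg]
    refine ⟨three_first, ?_⟩
    have := three_second
    rw [pow_one]
    exact this
  · have h4 : p ≠ 4 := by omega
    have h6 : p ≠ 6 := by omega
    have h7 : 7 ≤ p := by omega
    rw [hleg, show (p - 1) / 2 = h by omega]
    obtain ⟨c1, hc1, e1⟩ := Pool.Agent.H54.SC.first_cong hp h7
    obtain ⟨c2, hc2, e2⟩ := Pool.Agent.H54.SC.second_cong hp h7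
    exact ⟨congMod_of hpf.out.ne_zero hc1 e1, congMod_of hpf.out.ne_zero hc2 e2⟩

end Pool.Agent.Results.MP_48d34c_nt.ModPEight
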